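import Mathlib
set_option autoImplicit false

/-! # Cosine sums with bounded multiplicity: L² bounds and a Bessel inequality -/

open MeasureTheory Real

namespace Pool.Agent.N706.Lac

lemma int_cos_int (m : ℤ) (hm : m ≠ 0) : ∫ x in (0:ℝ)..(2*π), Real.cos ((m:ℝ) * x) = 0 := by
  have hm' : (m:ℝ) ≠ 0 := by exact_mod_cast hm
  rw [intervalIntegral.integral_comp_mul_left (fun x => Real.cos x) hm', integral_cos]
  have h1 : Real.sin ((m:ℝ) * (2*π)) = 0 := by
    have : (m:ℝ) * (2*π) = ((2*m : ℤ) : ℝ) * π := by push_cast; ring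
    rw [this, Real.sin_int_mul_pi]
  rw [h1]; simp

lemma int_cos_mul (N M : ℕ) (hN : 0 < N) (hM : 0 < M) :
    ∫ x in (0:ℝ)..(2*π), Real.cos (N*x) * Real.cos (M*x) = if N = M then π else 0 := by
  have h1 : ∀ x : ℝ, Real.cos (N*x) * Real.cos (M*x) =
      (1/2) * Real.cos ((((N:ℤ) - (M:ℤ) : ℤ) : ℝ) * x) + (1/2) * Real.cos ((((N:ℤ) + (M:ℤ) : ℤ) : ℝ) * x) := by
    intro x
    have e1 : ((((N:ℤ) - (M:ℤ) : ℤ) : ℝ) * x) = N * x - M * x := by push_cast; ring
    have e2 : ((((N:ℤ) + (M:ℤ) : ℤ) : ℝ) * x) = N * x + M * x := by push_cast; ring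
    rw [e1, e2, Real.cos_sub, Real.cos_add]; ring
  simp_rw [h1]
  rw [intervalIntegral.integral_add (by apply Continuous.intervalIntegrable; fun_prop)
    (by apply Continuous.intervalIntegrable; fun_prop),
    intervalIntegral.integral_const_mul, intervalIntegral.integral_const_mul]
  have h2 : ∫ x in (0:ℝ)..(2*π), Real.cos ((((N:ℤ) + (M:ℤ) : ℤ) : ℝ) * x) = 0 :=
    int_cos_int _ (by omega)
  rw [h2]
  split_ifs with h
  · subst h
    simp
  · rw [int_cos_int _ (by omega)]; simp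

/-- `L²` bound for cosine sums whose frequencies have multiplicity at most `D`. -/
lemma sq_int_le {ι : Type*} (s : Finset ι) (N : ι → ℕ) (hN : ∀ i ∈ s, 0 < N i) (D : ℕ)
    (hD : ∀ i ∈ s, (s.filter (fun j => N j = N i)).card ≤ D) (c : ι → ℝ) :
    ∫ x in (0:ℝ)..(2*π), (∑ i ∈ s, c i * Real.cos (N i * x))^2 ≤ π * D * ∑ i ∈ s, c i ^ 2 := by
  have h1 : ∀ x : ℝ, (∑ i ∈ s, c i * Real.cos (N i * x))^2 =
      ∑ i ∈ s, ∑ j ∈ s, (c i * c j) * (Real.cos (N i * x) * Real.cos (N j * x)) := by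
    intro x
    rw [sq, Finset.sum_mul_sum]
    refine Finset.sum_congr rfl fun i _ => Finset.sum_congr rfl fun j _ => ?_
    ring
  simp_rw [h1]
  rw [intervalIntegral.integral_finsetSum
    (fun i _ => by apply Continuous.intervalIntegrable; fun_prop)]
  have h2 : ∀ i ∈ s, ∫ x in (0:ℝ)..(2*π), ∑ j ∈ s, (c i * c j) * (Real.cos (N i * x) * Real.cos (N j * x))
      = ∑ j ∈ s, (c i * c j) * (if N i = N j then π else 0) := by
    intro i hi
    rw [intervalIntegral.integral_finsetSum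
      (fun j _ => by apply Continuous.intervalIntegrable; fun_prop)]
    refine Finset.sum_congr rfl fun j hj => ?_
    rw [intervalIntegral.integral_const_mul, int_cos_mul _ _ (hN i hi) (hN j hj)]
  rw [Finset.sum_congr rfl h2]
  have hpi := Real.pi_pos
  have h3 : ∀ i ∈ s, ∑ j ∈ s, (c i * c j) * (if N i = N j then π else 0) ≤
      ∑ j ∈ s, (if N i = N j then π/2 * c i^2 else 0) + ∑ j ∈ s, (if N i = N j then π/2 * c j^2 else 0) := by
    intro i _
    rw [← Finset.sum_add_distrib]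
    refine Finset.sum_le_sum fun j _ => ?_
    split_ifs
    · nlinarith [sq_nonneg (c i - c j)]
    · simp
  have h4 : ∀ i ∈ s, ∑ j ∈ s, (if N i = N j then π/2 * c i^2 else 0) ≤ D * (π/2 * c i^2) := by
    intro i hi
    rw [← Finset.sum_filter, Finset.sum_const, nsmul_eq_mul]
    apply mul_le_mul_of_nonneg_right _ (by positivity)
    have := hD i hi
    have h5 : (s.filter (fun j => N i = N j)) = (s.filter (fun j => N j = N i)) := by
      ext j; simp [eq_comm]
    rw [h5]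
    exact_mod_cast this
  calc ∑ i ∈ s, ∑ j ∈ s, (c i * c j) * (if N i = N j then π else 0)
      ≤ ∑ i ∈ s, (∑ j ∈ s, (if N i = N j then π/2 * c i^2 else 0) + ∑ j ∈ s, (if N i = N j then π/2 * c j^2 else 0)) :=
        Finset.sum_le_sum h3
    _ = ∑ i ∈ s, ∑ j ∈ s, (if N i = N j then π/2 * c i^2 else 0) +
        ∑ j ∈ s, ∑ i ∈ s, (if N i = N j then π/2 * c j^2 else 0) := by
        rw [Finset.sum_add_distrib]
        congr 1
        exact Finset.sum_comm
    _ = ∑ i ∈ s, ∑ j ∈ s, (if N i = N j then π/2 * c i^2 else 0) +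
        ∑ i ∈ s, ∑ j ∈ s, (if N i = N j then π/2 * c i^2 else 0) := by
        congr 1
        refine Finset.sum_congr rfl fun j _ => Finset.sum_congr rfl fun i _ => ?_
        by_cases h : N i = N j
        · rw [if_pos h, if_pos h.symm]
        · rw [if_neg h, if_neg (Ne.symm h)]
    _ ≤ ∑ i ∈ s, D * (π/2 * c i^2) + ∑ i ∈ s, D * (π/2 * c i^2) :=
        add_le_add (Finset.sum_le_sum h4) (Finset.sum_le_sum h4)
    _ = π * D * ∑ i ∈ s, c i ^ 2 := by
        rw [← Finset.sum_add_distrib, Finset.mul_sum]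
        refine Finset.sum_congr rfl fun i _ => ?_
        ring

/-- cosine coefficients of the indicator function of `E` -/
noncomputable def b (E : Set ℝ) (N : ℕ) : ℝ := ∫ x in E, Real.cos ((N:ℝ) * x)

lemma cont_integrableOn {E : Set ℝ} (hE : E ⊆ Set.Ioc 0 (2*π)) {g : ℝ → ℝ} (hg : Continuous g) :
    IntegrableOn g E :=
  (hg.continuousOn.integrableOn_Icc (a := 0) (b := 2*π) (μ := volume)).mono_set
    (hE.trans Set.Ioc_subset_Icc_self)

lemma setInt_le_int {E : Set ℝ} (hE : E ⊆ Set.Ioc 0 (2*π)) (hEm : MeasurableSet E)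
    {g : ℝ → ℝ} (hg : Continuous g) (hg0 : ∀ x, 0 ≤ g x) :
    ∫ x in E, g x ≤ ∫ x in (0:ℝ)..(2*π), g x := by
  rw [intervalIntegral.integral_of_le (by positivity)]
  exact setIntegral_mono_set (cont_integrableOn le_rfl hg) (ae_of_all _ hg0) (ae_of_all _ hE)

/-- Bessel's inequality with multiplicities. -/
lemma bessel {E : Set ℝ} (hE : E ⊆ Set.Ioc 0 (2*π)) (hEm : MeasurableSet E)
    {ι : Type*} (s : Finset ι) (N : ι → ℕ) (hN : ∀ i ∈ s, 0 < N i) (D : ℕ)
    (hD : ∀ i ∈ s, (s.filter (fun j => N j = N i)).card ≤ D) :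
    ∑ i ∈ s, b E (N i) ^ 2 ≤ π * D * (2*π) := by
  have hpi := Real.pi_pos
  by_cases hD0 : D = 0
  · have : s = ∅ := by
      by_contra hne
      obtain ⟨i, hi⟩ := Finset.nonempty_iff_ne_empty.2 hne
      have h1 := hD i hi
      have h2 : i ∈ s.filter (fun j => N j = N i) := by simp [hi]
      have h3 := Finset.card_pos.2 ⟨i, h2⟩
      omega
    rw [this]; simp; positivity
  have hDpos : (0:ℝ) < D := by
    have : 0 < D := Nat.pos_of_ne_zero hD0
    exact_mod_cast this
  set B := ∑ i ∈ s, b E (N i) ^ 2 with hB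
  have h1 := sq_int_le s N hN D hD (fun i => b E (N i))
  set U : ℝ → ℝ := fun x => ∑ i ∈ s, b E (N i) * Real.cos (N i * x) with hU
  have hUc : Continuous U := by fun_prop
  have h2 : ∫ x in E, U x = B := by
    rw [hU, integral_finsetSum]
    · rw [hB]
      refine Finset.sum_congr rfl fun i _ => ?_
      rw [integral_const_mul, sq]; rfl
    · intro i _
      exact cont_integrableOn hE (by fun_prop)
  have h3 : ∫ x in E, U x ^ 2 ≤ π * D * B :=
    (setInt_le_int hE hEm (hUc.pow 2) (fun x => sq_nonneg _)).trans h1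
  set K := π * D with hK
  have hKpos : 0 < K := by positivity
  have h4 : ∫ x in E, (2 * K) * U x ≤ ∫ x in E, (U x ^ 2 + K^2) := by
    apply integral_mono (cont_integrableOn hE (by fun_prop)) (cont_integrableOn hE (by fun_prop))
    intro x
    show 2 * K * U x ≤ U x ^ 2 + K ^ 2
    nlinarith [sq_nonneg (U x - K)]
  have hvol : volume.real E ≤ 2*π := by
    have h5 : volume.real E ≤ volume.real (Set.Ioc 0 (2*π)) :=
      measureReal_mono hE (by rw [Real.volume_Ioc]; exact ENNReal.ofReal_ne_top)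
    rw [Real.volume_real_Ioc_of_le (by positivity)] at h5
    linarith
  rw [integral_const_mul, h2, integral_add (cont_integrableOn hE (by fun_prop))
    (cont_integrableOn hE (by fun_prop)), setIntegral_const, smul_eq_mul] at h4
  have h6 : K * B ≤ volume.real E * K^2 := by nlinarith
  have h7 : volume.real E * K^2 ≤ 2*π*K^2 := mul_le_mul_of_nonneg_right hvol (by positivity)
  have h8 : K * B ≤ K * (K * (2*π)) := by nlinarith
  exact le_of_mul_le_mul_left h8 hKpos

/-- an `ℓ²` family has small partial sums -/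
lemma l2_small {ι : Type*} [DecidableEq ι] (a : ι → ℝ) (K : ℝ) (ha : ∀ s : Finset ι, ∑ i ∈ s, a i ^ 2 ≤ K)
    (η : ℝ) (hη : 0 < η) : ∃ C : ℝ, 0 ≤ C ∧ ∀ t : Finset ι, ∑ i ∈ t, |a i| ≤ C + η * Real.sqrt t.card := by
  have hs : Summable (fun i => a i ^ 2) :=
    summable_of_sum_le (fun i => sq_nonneg _) ha
  obtain ⟨s0, hs0⟩ := summable_iff_vanishing_norm.1 hs (η^2) (by positivity)
  refine ⟨∑ i ∈ s0, |a i|, Finset.sum_nonneg fun i _ => abs_nonneg _, fun t => ?_⟩
  have h1 : ∑ i ∈ t, |a i| = ∑ i ∈ t ∩ s0, |a i| + ∑ i ∈ t \ s0, |a i| := by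
    rw [Finset.sum_inter_add_sum_sdiff t s0]
  have h2 : ∑ i ∈ t ∩ s0, |a i| ≤ ∑ i ∈ s0, |a i| :=
    Finset.sum_le_sum_of_subset_of_nonneg Finset.inter_subset_right (fun i _ _ => abs_nonneg _)
  have h3 : ∑ i ∈ t \ s0, a i ^ 2 ≤ η^2 := by
    have := hs0 (t \ s0) Finset.sdiff_disjoint
    rw [Real.norm_eq_abs] at this
    exact (le_abs_self _).trans this.le
  have h4 : (∑ i ∈ t \ s0, |a i|)^2 ≤ ((t \ s0).card : ℝ) * ∑ i ∈ t \ s0, |a i|^2 :=
    sq_sum_le_card_mul_sum_sq
  have h5 : ((t \ s0).card : ℝ) ≤ t.card := by exact_mod_cast Finset.card_le_card Finset.sdiff_subset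
  have h6 : (∑ i ∈ t \ s0, |a i|)^2 ≤ (η * Real.sqrt t.card)^2 := by
    rw [mul_pow, Real.sq_sqrt (by positivity)]
    simp_rw [sq_abs] at h4
    calc _ ≤ ((t \ s0).card : ℝ) * ∑ i ∈ t \ s0, a i^2 := h4
      _ ≤ (t.card : ℝ) * η^2 := mul_le_mul h5 h3 (Finset.sum_nonneg fun i _ => sq_nonneg _) (by positivity)
      _ = _ := by ring
  have h7 : ∑ i ∈ t \ s0, |a i| ≤ η * Real.sqrt t.card :=
    le_of_sq_le_sq h6 (by positivity)
  linarith

end Pool.Agent.N706.Lac
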