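import Pool.Agent.N706.Lac.A
set_option autoImplicit false

/-! # Hadamard gap sequences: multiplicities of `n i ± n j`, moments of the partial sums -/

open MeasureTheory Real

namespace Pool.Agent.N706.Lac

section
variable {n : ℕ → ℕ} {q : ℝ}

lemma n_lt (hq : 1 < q) (hpos : ∀ k, 0 < n k) (hgrow : ∀ k, q * (n k : ℝ) ≤ (n (k + 1) : ℝ)) (k : ℕ) :
    n k < n (k+1) := by
  have h1 : (0:ℝ) < n k := by exact_mod_cast hpos k
  have h2 := hgrow k
  have h3 : (n k : ℝ) < n (k+1) := by nlinarith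
  exact_mod_cast h3

lemma n_mono (hq : 1 < q) (hpos : ∀ k, 0 < n k) (hgrow : ∀ k, q * (n k : ℝ) ≤ (n (k + 1) : ℝ)) :
    StrictMono n := strictMono_nat_of_lt_succ (n_lt hq hpos hgrow)

lemma n_pow (hq : 1 < q) (hgrow : ∀ k, q * (n k : ℝ) ≤ (n (k + 1) : ℝ)) (k d : ℕ) :
    q ^ d * (n k : ℝ) ≤ n (k + d) := by
  induction d with
  | zero => simp
  | succ d ih =>
    calc q ^ (d+1) * (n k : ℝ) = q * (q ^ d * n k) := by ring
      _ ≤ q * n (k + d) := mul_le_mul_of_nonneg_left ih (by linarith)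
      _ ≤ n (k + d + 1) := hgrow _
      _ = n (k + (d+1)) := by rw [add_assoc]

/-- `∑_{i<k} n i ≤ q/(q-1) * n k` -/
lemma n_sum (hq : 1 < q) (hgrow : ∀ k, q * (n k : ℝ) ≤ (n (k + 1) : ℝ)) (k : ℕ) :
    ∑ i ∈ Finset.range (k+1), (n i : ℝ) ≤ q / (q-1) * n k := by
  have hq1 : 0 < q - 1 := by linarith
  induction k with
  | zero =>
    simp
    have h1 : (1:ℝ) ≤ q / (q-1) := by rw [le_div_iff₀ hq1]; linarith
    have h2 : (0:ℝ) ≤ n 0 := by positivity
    nlinarith
  | succ k ih =>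
    rw [Finset.sum_range_succ]
    have h1 := hgrow k
    have h2 : q / (q-1) * (n k : ℝ) ≤ 1 / (q-1) * n (k+1) := by
      rw [div_mul_eq_mul_div, div_mul_eq_mul_div, one_mul]
      gcongr
    calc _ ≤ 1 / (q-1) * (n (k+1) : ℝ) + n (k+1) := by linarith
      _ = q / (q-1) * n (k+1) := by field_simp; ring

lemma card_le_of_diff (A : Finset ℕ) (D : ℕ) (h : ∀ a ∈ A, ∀ b ∈ A, b < a + D) : A.card ≤ D := by
  rcases A.eq_empty_or_nonempty with rfl | hne
  · simp
  have h1 : A ⊆ Finset.Ico (A.min' hne) (A.min' hne + D) := by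
    intro x hx
    rw [Finset.mem_Ico]
    exact ⟨A.min'_le x hx, h _ (A.min'_mem hne) x hx⟩
  have := Finset.card_le_card h1
  simpa using this

/-- general multiplicity bound -/
lemma mult_bound (hq : 1 < q) (hpos : ∀ k, 0 < n k) (hgrow : ∀ k, q * (n k : ℝ) ≤ (n (k + 1) : ℝ))
    (D : ℕ) (α : ℝ) (hα : 0 < α) (hD : 2 < α * q ^ D) (s : Finset (ℕ × ℕ)) (N : ℕ × ℕ → ℕ)
    (h1 : ∀ p ∈ s, α * n (max p.1 p.2) ≤ N p) (h2 : ∀ p ∈ s, (N p : ℝ) ≤ 2 * n (max p.1 p.2))
    (h3 : ∀ p ∈ s, ∀ p' ∈ s, N p = N p' → max p.1 p.2 = max p'.1 p'.2 → (p.1 < p.2 ↔ p'.1 < p'.2) → p = p')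
    (p0 : ℕ × ℕ) : (s.filter (fun p => N p = N p0)).card ≤ D * 2 := by
  classical
  set F := s.filter (fun p => N p = N p0) with hF
  set A := F.image (fun p => max p.1 p.2) with hA
  have hAc : A.card ≤ D := by
    apply card_le_of_diff
    intro a ha b' hb
    rw [hA, Finset.mem_image] at ha hb
    obtain ⟨p, hp, rfl⟩ := ha
    obtain ⟨p', hp', rfl⟩ := hb
    rw [hF, Finset.mem_filter] at hp hp'
    by_contra hcon
    push Not at hcon
    obtain ⟨d, hd⟩ := Nat.exists_eq_add_of_le hcon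
    have e1 := h2 p hp.1
    have e2 := h1 p' hp'.1
    have e3 : (N p : ℝ) = N p' := by rw [hp.2, hp'.2]
    have e4 := n_pow hq hgrow (max p.1 p.2) (D + d)
    rw [← add_assoc, ← hd] at e4
    have e5 : (0:ℝ) < n (max p.1 p.2) := by exact_mod_cast hpos _
    have e6 : α * (q ^ (D+d) * n (max p.1 p.2)) ≤ 2 * n (max p.1 p.2) := by
      calc _ ≤ α * n (max p'.1 p'.2) := mul_le_mul_of_nonneg_left e4 hα.le
        _ ≤ 2 * n (max p.1 p.2) := by linarith
    have e7 : q ^ D ≤ q ^ (D+d) := pow_le_pow_right₀ hq.le (Nat.le_add_right _ _)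
    have e8 : α * q ^ D * n (max p.1 p.2) ≤ α * (q ^ (D+d) * n (max p.1 p.2)) := by
      rw [mul_assoc]
      exact mul_le_mul_of_nonneg_left (mul_le_mul_of_nonneg_right e7 e5.le) hα.le
    nlinarith
  have hinj : F.card ≤ (A ×ˢ (Finset.univ : Finset Bool)).card := by
    apply Finset.card_le_card_of_injOn (fun p => (max p.1 p.2, decide (p.1 < p.2)))
    · intro p hp
      rw [Finset.mem_coe] at hp
      simp only [Finset.coe_product, Set.mem_prod, Finset.mem_coe, Finset.mem_univ, and_true]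
      exact Finset.mem_image_of_mem _ hp
    · intro p hp p' hp' hpp
      rw [Finset.mem_coe, hF, Finset.mem_filter] at hp hp'
      simp only [Prod.mk.injEq, decide_eq_decide] at hpp
      exact h3 p hp.1 p' hp'.1 (by rw [hp.2, hp'.2]) hpp.1 hpp.2
  calc F.card ≤ _ := hinj
    _ = A.card * 2 := by rw [Finset.card_product]; simp
    _ ≤ D * 2 := Nat.mul_le_mul_right 2 hAc

/-- frequencies `n i + n j` -/
def N1 (n : ℕ → ℕ) (p : ℕ × ℕ) : ℕ := n p.1 + n p.2
/-- frequencies `|n i - n j|` -/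
def N2 (n : ℕ → ℕ) (p : ℕ × ℕ) : ℕ := n (max p.1 p.2) - n (min p.1 p.2)

lemma N1_eq (n : ℕ → ℕ) (p : ℕ × ℕ) : N1 n p = n (max p.1 p.2) + n (min p.1 p.2) := by
  unfold N1
  rcases le_total p.1 p.2 with h | h
  · rw [max_eq_right h, min_eq_left h, add_comm]
  · rw [max_eq_left h, min_eq_right h]

lemma exists_D (hq : 1 < q) : ∃ D : ℕ, 2 < (1 - 1/q) * q ^ D := by
  have h0 : 0 < 1 - 1/q := by
    rw [sub_pos, div_lt_one (by linarith)]; exact hq
  obtain ⟨D, hD⟩ := pow_unbounded_of_one_lt (2 / (1 - 1/q)) hq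
  refine ⟨D, ?_⟩
  rw [div_lt_iff₀ h0] at hD
  linarith

lemma pair_det {p p' : ℕ × ℕ} (h1 : max p.1 p.2 = max p'.1 p'.2) (h2 : min p.1 p.2 = min p'.1 p'.2)
    (h3 : p.1 < p.2 ↔ p'.1 < p'.2) : p = p' := by
  obtain ⟨a, b'⟩ := p
  obtain ⟨c, d⟩ := p'
  simp only at h1 h2 h3
  ext
  · show a = c
    omega
  · show b' = d
    omega

lemma mult1 (hq : 1 < q) (hpos : ∀ k, 0 < n k) (hgrow : ∀ k, q * (n k : ℝ) ≤ (n (k + 1) : ℝ))
    (D : ℕ) (hD : 2 < (1 - 1/q) * q ^ D) (s : Finset (ℕ × ℕ)) (p0 : ℕ × ℕ) :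
    (s.filter (fun p => N1 n p = N1 n p0)).card ≤ D * 2 := by
  have hmono := n_mono hq hpos hgrow
  have h0 : 0 < 1 - 1/q := by
    rw [sub_pos, div_lt_one (by linarith)]; exact hq
  have h01 : 1 - 1/q ≤ 1 := by
    have : 0 < 1/q := by positivity
    linarith
  apply mult_bound hq hpos hgrow D (1 - 1/q) h0 hD s (N1 n)
  · intro p _
    rw [N1_eq]; push_cast
    have e1 : (0:ℝ) ≤ n (max p.1 p.2) := by positivity
    have e2 : (0:ℝ) ≤ n (min p.1 p.2) := by positivity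
    nlinarith
  · intro p _
    rw [N1_eq]; push_cast
    have e1 : n (min p.1 p.2) ≤ n (max p.1 p.2) := hmono.monotone min_le_max
    have e2 : (n (min p.1 p.2) : ℝ) ≤ n (max p.1 p.2) := by exact_mod_cast e1
    linarith
  · intro p _ p' _ hN hm hb
    rw [N1_eq, N1_eq, hm] at hN
    have : n (min p.1 p.2) = n (min p'.1 p'.2) := by omega
    exact pair_det hm (hmono.injective this) hb

lemma mult2 (hq : 1 < q) (hpos : ∀ k, 0 < n k) (hgrow : ∀ k, q * (n k : ℝ) ≤ (n (k + 1) : ℝ))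
    (D : ℕ) (hD : 2 < (1 - 1/q) * q ^ D) (s : Finset (ℕ × ℕ)) (hs : ∀ p ∈ s, p.1 ≠ p.2) (p0 : ℕ × ℕ) :
    (s.filter (fun p => N2 n p = N2 n p0)).card ≤ D * 2 := by
  have hmono := n_mono hq hpos hgrow
  have h0 : 0 < 1 - 1/q := by
    rw [sub_pos, div_lt_one (by linarith)]; exact hq
  apply mult_bound hq hpos hgrow D (1 - 1/q) h0 hD s (N2 n)
  · intro p hp
    have e1 : n (min p.1 p.2) ≤ n (max p.1 p.2) := hmono.monotone min_le_max
    unfold N2
    rw [Nat.cast_sub e1]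
    have hlt : min p.1 p.2 < max p.1 p.2 := by
      have := hs p hp
      omega
    have e2 : q * (n (min p.1 p.2) : ℝ) ≤ n (max p.1 p.2) := by
      refine (hgrow _).trans ?_
      have : n (min p.1 p.2 + 1) ≤ n (max p.1 p.2) := hmono.monotone (by omega)
      exact_mod_cast this
    have e3 : (n (min p.1 p.2) : ℝ) ≤ 1/q * n (max p.1 p.2) := by
      rw [one_div, ← div_eq_inv_mul, le_div_iff₀ (by linarith)]
      linarith
    linarith
  · intro p _
    have e1 : n (min p.1 p.2) ≤ n (max p.1 p.2) := hmono.monotone min_le_max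
    have e3 : N2 n p ≤ n (max p.1 p.2) := Nat.sub_le _ _
    have e4 : (N2 n p : ℝ) ≤ n (max p.1 p.2) := by exact_mod_cast e3
    have e5 : (0:ℝ) ≤ n (max p.1 p.2) := by positivity
    linarith
  · intro p _ p' _ hN hm hb
    unfold N2 at hN
    have e1 : n (min p.1 p.2) ≤ n (max p.1 p.2) := hmono.monotone min_le_max
    have e2 : n (min p'.1 p'.2) ≤ n (max p'.1 p'.2) := hmono.monotone min_le_max
    rw [hm] at hN e1
    have : n (min p.1 p.2) = n (min p'.1 p'.2) := by omega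
    exact pair_det hm (hmono.injective this) hb

/-- partial sums -/
noncomputable def S (n : ℕ → ℕ) (k : ℕ) (x : ℝ) : ℝ := ∑ i ∈ Finset.range k, Real.cos ((n i : ℝ) * x)

lemma S_cont (n : ℕ → ℕ) (k : ℕ) : Continuous (S n k) := by
  unfold S; fun_prop

lemma S_sq (n : ℕ → ℕ) (hmono : StrictMono n) (k : ℕ) (x : ℝ) :
    S n k x ^ 2 = k / 2 + (1/2) * ∑ p ∈ Finset.range k ×ˢ Finset.range k, 1 * Real.cos (N1 n p * x)
      + (1/2) * ∑ p ∈ (Finset.range k).offDiag, 1 * Real.cos (N2 n p * x) := by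
  have h1 : S n k x ^ 2 = ∑ p ∈ Finset.range k ×ˢ Finset.range k,
      Real.cos (n p.1 * x) * Real.cos (n p.2 * x) := by
    unfold S
    rw [sq, Finset.sum_mul_sum, Finset.sum_product]
  have h2 : ∀ p : ℕ × ℕ, Real.cos (n p.1 * x) * Real.cos (n p.2 * x) =
      (1/2) * (1 * Real.cos (N1 n p * x)) + (1/2) * (1 * Real.cos (N2 n p * x)) := by
    intro p
    have e1 : (N1 n p : ℝ) * x = n (max p.1 p.2) * x + n (min p.1 p.2) * x := by
      rw [N1_eq]; push_cast; ring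
    have e2 : (N2 n p : ℝ) * x = n (max p.1 p.2) * x - n (min p.1 p.2) * x := by
      unfold N2
      rw [Nat.cast_sub (hmono.monotone min_le_max)]; ring
    rw [e1, e2, Real.cos_sub, Real.cos_add]
    rcases le_total p.1 p.2 with h | h
    · rw [max_eq_right h, min_eq_left h]; ring
    · rw [max_eq_left h, min_eq_right h]; ring
  have h4 : ∑ p ∈ Finset.range k ×ˢ Finset.range k, Real.cos (n p.1 * x) * Real.cos (n p.2 * x) =
      (1/2) * ∑ p ∈ Finset.range k ×ˢ Finset.range k, 1 * Real.cos (N1 n p * x) +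
      (1/2) * ∑ p ∈ Finset.range k ×ˢ Finset.range k, 1 * Real.cos (N2 n p * x) := by
    rw [Finset.mul_sum, Finset.mul_sum, ← Finset.sum_add_distrib]
    exact Finset.sum_congr rfl fun p _ => h2 p
  rw [h1, h4]
  have h3 : ∑ p ∈ Finset.range k ×ˢ Finset.range k, 1 * Real.cos (N2 n p * x) =
      k + ∑ p ∈ (Finset.range k).offDiag, 1 * Real.cos (N2 n p * x) := by
    rw [← Finset.diag_union_offDiag, Finset.sum_union (Finset.disjoint_diag_offDiag _)]
    congr 1
    rw [Finset.sum_congr rfl (g := fun _ => (1:ℝ))]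
    · simp
    · intro p hp
      rw [Finset.mem_diag] at hp
      unfold N2
      rw [hp.2]; simp
  rw [h3]; ring

/-- fourth moment -/
lemma S_four (hq : 1 < q) (hpos : ∀ k, 0 < n k) (hgrow : ∀ k, q * (n k : ℝ) ≤ (n (k + 1) : ℝ)) :
    ∃ K : ℝ, 0 < K ∧ ∀ k : ℕ, ∫ x in (0:ℝ)..(2*π), S n k x ^ 4 ≤ K * k^2 := by
  have hmono := n_mono hq hpos hgrow
  obtain ⟨D, hD⟩ := exists_D hq
  have hpi := Real.pi_pos
  refine ⟨(3/4) * (2*π + π * (D*2:ℕ) + π * (D*2:ℕ)), by positivity, fun k => ?_⟩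
  set U1 : ℝ → ℝ := fun x => ∑ p ∈ Finset.range k ×ˢ Finset.range k, 1 * Real.cos (N1 n p * x) with hU1
  set U2 : ℝ → ℝ := fun x => ∑ p ∈ (Finset.range k).offDiag, 1 * Real.cos (N2 n p * x) with hU2
  have c1 : Continuous U1 := by fun_prop
  have c2 : Continuous U2 := by fun_prop
  have i1 : ∫ x in (0:ℝ)..(2*π), U1 x ^ 2 ≤ π * (D*2:ℕ) * k^2 := by
    refine (sq_int_le _ (N1 n) (fun p _ => ?_) (D*2) (fun p _ => mult1 hq hpos hgrow D hD _ p) (fun _ => 1)).trans ?_
    · unfold N1; have := hpos p.1; omega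
    · simp [sq]
  have i2 : ∫ x in (0:ℝ)..(2*π), U2 x ^ 2 ≤ π * (D*2:ℕ) * k^2 := by
    refine (sq_int_le _ (N2 n) (fun p hp => ?_) (D*2) (fun p _ => mult2 hq hpos hgrow D hD _
      (fun p hp => (Finset.mem_offDiag.1 hp).2.2) p) (fun _ => 1)).trans ?_
    · unfold N2
      have h1 := (Finset.mem_offDiag.1 hp).2.2
      have : n (min p.1 p.2) < n (max p.1 p.2) := hmono (by omega)
      omega
    · have h1 : ((Finset.range k).offDiag.card : ℝ) ≤ k^2 := by
        have : (Finset.range k).offDiag.card ≤ k^2 := by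
          rw [Finset.offDiag_card, Finset.card_range, sq]
          exact Nat.sub_le _ _
        exact_mod_cast this
      simp only [one_pow, Finset.sum_const, nsmul_eq_mul, mul_one]
      exact mul_le_mul_of_nonneg_left h1 (by positivity)
  have hb : ∀ x, S n k x ^ 4 ≤ (3/4) * ((k:ℝ)^2 + U1 x ^ 2 + U2 x ^2) := by
    intro x
    have e : S n k x ^ 4 = (S n k x ^ 2)^2 := by ring
    rw [e, S_sq n hmono k x]
    show ((k:ℝ)/2 + 1/2 * U1 x + 1/2 * U2 x)^2 ≤ _
    nlinarith [sq_nonneg ((k:ℝ) - U1 x), sq_nonneg ((k:ℝ) - U2 x), sq_nonneg (U1 x - U2 x)]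
  calc ∫ x in (0:ℝ)..(2*π), S n k x ^ 4 ≤ ∫ x in (0:ℝ)..(2*π), (3/4) * ((k:ℝ)^2 + U1 x ^ 2 + U2 x ^2) := by
        apply intervalIntegral.integral_mono_on (by positivity)
        · exact ((S_cont n k).pow 4).intervalIntegrable _ _
        · apply Continuous.intervalIntegrable; fun_prop
        · intro x _; exact hb x
    _ = (3/4) * (2*π*k^2 + (∫ x in (0:ℝ)..(2*π), U1 x ^ 2) + ∫ x in (0:ℝ)..(2*π), U2 x ^ 2) := by
        rw [intervalIntegral.integral_const_mul, intervalIntegral.integral_add, intervalIntegral.integral_add]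
        · simp
        · apply Continuous.intervalIntegrable; fun_prop
        · apply Continuous.intervalIntegrable; fun_prop
        · apply Continuous.intervalIntegrable; fun_prop
        · apply Continuous.intervalIntegrable; fun_prop
    _ ≤ _ := by nlinarith

end

end Pool.Agent.N706.Lac
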