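import Pool.Agent.N706.Lac.B
set_option autoImplicit false

/-! # The partial sums are not bounded below (or above) on a set of positive measure -/

open MeasureTheory Real

namespace Pool.Agent.N706.Lac

section
variable {n : ℕ → ℕ} {q : ℝ}

lemma lin_small (hq : 1 < q) (hpos : ∀ k, 0 < n k) (hgrow : ∀ k, q * (n k : ℝ) ≤ (n (k + 1) : ℝ))
    {E : Set ℝ} (hE : E ⊆ Set.Ioc 0 (2*π)) (hEm : MeasurableSet E) (η : ℝ) (hη : 0 < η) :
    ∃ C : ℝ, 0 ≤ C ∧ ∀ k : ℕ, |∫ x in E, S n k x| ≤ C + η * Real.sqrt k := by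
  have hmono := n_mono hq hpos hgrow
  obtain ⟨C, hC0, hC⟩ := l2_small (fun i : ℕ => b E (n i)) (π * (1:ℕ) * (2*π)) (fun s => by
    apply bessel hE hEm s n (fun i _ => hpos i) 1
    intro i _
    rw [Finset.card_le_one]
    intro a ha b' hb
    rw [Finset.mem_filter] at ha hb
    exact hmono.injective (ha.2.trans hb.2.symm)) η hη
  refine ⟨C, hC0, fun k => ?_⟩
  have h1 : ∫ x in E, S n k x = ∑ i ∈ Finset.range k, b E (n i) := by
    unfold S
    rw [integral_finsetSum]
    · rfl
    · intro i _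
      exact cont_integrableOn hE (by fun_prop)
  rw [h1]
  refine (Finset.abs_sum_le_sum_abs _ _).trans ((hC (Finset.range k)).trans ?_)
  rw [Finset.card_range]

lemma quad_lower (hq : 1 < q) (hpos : ∀ k, 0 < n k) (hgrow : ∀ k, q * (n k : ℝ) ≤ (n (k + 1) : ℝ))
    {E : Set ℝ} (hE : E ⊆ Set.Ioc 0 (2*π)) (hEm : MeasurableSet E) (η : ℝ) (hη : 0 < η) :
    ∃ C : ℝ, 0 ≤ C ∧ ∀ k : ℕ, k * volume.real E / 2 ≤ (∫ x in E, S n k x ^ 2) + C + η * k := by
  have hmono := n_mono hq hpos hgrow
  obtain ⟨D, hD⟩ := exists_D hq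
  obtain ⟨C1, hC10, hC1⟩ := l2_small (fun p : ℕ × ℕ => b E (N1 n p)) (π * (D*2:ℕ) * (2*π)) (fun s => by
    apply bessel hE hEm s (N1 n) (fun p _ => ?_) (D*2) (fun p _ => mult1 hq hpos hgrow D hD _ p)
    unfold N1; have := hpos p.1; omega) η hη
  obtain ⟨C2, hC20, hC2⟩ := l2_small (fun p : ℕ × ℕ => if p.1 ≠ p.2 then b E (N2 n p) else 0)
    (π * (D*2:ℕ) * (2*π)) (fun s => by
    have h1 : ∑ p ∈ s, (if p.1 ≠ p.2 then b E (N2 n p) else 0)^2 =
        ∑ p ∈ s.filter (fun p => p.1 ≠ p.2), b E (N2 n p) ^ 2 := by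
      rw [Finset.sum_filter]
      refine Finset.sum_congr rfl fun p _ => ?_
      split_ifs <;> simp
    rw [h1]
    apply bessel hE hEm _ (N2 n) (fun p hp => ?_) (D*2) (fun p _ => mult2 hq hpos hgrow D hD _
      (fun p hp => (Finset.mem_filter.1 hp).2) p)
    unfold N2
    have h1 := (Finset.mem_filter.1 hp).2
    have : n (min p.1 p.2) < n (max p.1 p.2) := hmono (by omega)
    omega) η hη
  refine ⟨(C1 + C2)/2, by positivity, fun k => ?_⟩
  have h1 : ∫ x in E, S n k x ^ 2 = k * volume.real E / 2 + (1/2) * ∑ p ∈ Finset.range k ×ˢ Finset.range k, b E (N1 n p)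
      + (1/2) * ∑ p ∈ (Finset.range k).offDiag, b E (N2 n p) := by
    have c1 : Continuous (fun x : ℝ => ∑ p ∈ Finset.range k ×ˢ Finset.range k, 1 * Real.cos (N1 n p * x)) := by fun_prop
    have c2 : Continuous (fun x : ℝ => ∑ p ∈ (Finset.range k).offDiag, 1 * Real.cos (N2 n p * x)) := by fun_prop
    simp_rw [S_sq n hmono k]
    rw [integral_add (cont_integrableOn hE (by fun_prop)) (cont_integrableOn hE (by fun_prop)),
      integral_add (cont_integrableOn hE (by fun_prop)) (cont_integrableOn hE (by fun_prop)),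
      integral_const_mul, integral_const_mul, setIntegral_const, smul_eq_mul, integral_finsetSum,
      integral_finsetSum]
    · simp only [one_mul]
      unfold b
      ring
    · intro i _
      exact cont_integrableOn hE (by fun_prop)
    · intro i _
      exact cont_integrableOn hE (by fun_prop)
  have h2 := hC1 (Finset.range k ×ˢ Finset.range k)
  have h3 := hC2 ((Finset.range k).offDiag)
  have e1 : Real.sqrt ((Finset.range k ×ˢ Finset.range k).card : ℝ) = k := by
    rw [Finset.card_product, Finset.card_range]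
    push_cast
    exact Real.sqrt_mul_self (by positivity)
  have e2 : Real.sqrt (((Finset.range k).offDiag).card : ℝ) ≤ k := by
    have h5 : ((Finset.range k).offDiag.card : ℝ) ≤ (k:ℝ)^2 := by
      have : (Finset.range k).offDiag.card ≤ k^2 := by
        rw [Finset.offDiag_card, Finset.card_range, sq]
        exact Nat.sub_le _ _
      exact_mod_cast this
    exact Real.sqrt_le_iff.2 ⟨by positivity, h5⟩
  rw [e1] at h2
  have h4 : ∑ p ∈ (Finset.range k).offDiag, |if p.1 ≠ p.2 then b E (N2 n p) else 0| =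
      ∑ p ∈ (Finset.range k).offDiag, |b E (N2 n p)| := by
    refine Finset.sum_congr rfl fun p hp => ?_
    rw [if_pos (Finset.mem_offDiag.1 hp).2.2]
  rw [h4] at h3
  have h5 := Finset.abs_sum_le_sum_abs (fun p => b E (N1 n p)) (Finset.range k ×ˢ Finset.range k)
  have h6 := Finset.abs_sum_le_sum_abs (fun p => b E (N2 n p)) ((Finset.range k).offDiag)
  have h7 := abs_le.1 (h5.trans h2)
  have h8 := abs_le.1 (h6.trans h3)
  have h9 : η * Real.sqrt (((Finset.range k).offDiag).card : ℝ) ≤ η * k :=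
    mul_le_mul_of_nonneg_left e2 hη.le
  rw [h1]
  linarith [h7.1, h8.1]

theorem null_of_bdd (hq : 1 < q) (hpos : ∀ k, 0 < n k) (hgrow : ∀ k, q * (n k : ℝ) ≤ (n (k + 1) : ℝ))
    {E : Set ℝ} (hE : E ⊆ Set.Ioc 0 (2*π)) (hEm : MeasurableSet E) (σ : ℝ) (hσ : σ = 1 ∨ σ = -1)
    (c : ℝ) (k0 : ℕ) (h : ∀ k ≥ k0, ∀ x ∈ E, -c ≤ σ * S n k x) : volume E = 0 := by
  have hpi := Real.pi_pos
  have hEfin : volume E ≠ ⊤ := by
    apply ne_top_of_le_ne_top _ (measure_mono hE)
    rw [Real.volume_Ioc]; exact ENNReal.ofReal_ne_top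
  by_contra hne
  have he : 0 < volume.real E := by
    rw [Measure.real]
    exact ENNReal.toReal_pos hne hEfin
  set e := volume.real E with hedef
  have he2 : e ≤ 2*π := by
    have h5 : volume.real E ≤ volume.real (Set.Ioc 0 (2*π)) :=
      measureReal_mono hE (by rw [Real.volume_Ioc]; exact ENNReal.ofReal_ne_top)
    rw [Real.volume_real_Ioc_of_le (by positivity)] at h5
    linarith
  obtain ⟨K, hK0, hK⟩ := S_four hq hpos hgrow
  -- parameters
  obtain ⟨Λ, hΛ0, hΛ⟩ : ∃ Λ : ℝ, 0 < Λ ∧ K / Λ^2 ≤ e/16 := by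
    refine ⟨Real.sqrt (16*K/e), by positivity, ?_⟩
    rw [Real.sq_sqrt (by positivity)]
    apply le_of_eq
    field_simp
  obtain ⟨C2, hC20, hC2⟩ := quad_lower hq hpos hgrow hE hEm (e/16) (by positivity)
  obtain ⟨C1, hC10, hC1⟩ := lin_small hq hpos hgrow hE hEm (e/(16*Λ)) (by positivity)
  have key : ∀ m : ℕ, 1 ≤ m → k0 ≤ m^2 → (m:ℝ)^2 * (5*e/16) ≤ C2 + Λ * (C1 + 4*π*|c|) * m := by
    intro m hm hmk
    have hmpos : (0:ℝ) < m := by exact_mod_cast hm
    set k := m^2 with hk
    have hsq : Real.sqrt (k:ℝ) = m := by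
      rw [hk]; push_cast; exact Real.sqrt_sq hmpos.le
    have hkr : (k:ℝ) = (m:ℝ)^2 := by rw [hk]; push_cast; rfl
    have a1 := hC2 k
    have a2 := hC1 k
    rw [hsq] at a2
    have a3 : ∫ x in E, |S n k x| ≤ |∫ x in E, S n k x| + 4*π*|c| := by
      have b1 : ∀ x ∈ E, |S n k x| ≤ σ * S n k x + 2*|c| := by
        intro x hx
        have b2 := h k hmk x hx
        have b3 := le_abs_self c
        rcases hσ with rfl | rfl
        · rw [one_mul] at b2 ⊢
          rw [abs_le]
          constructor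
          · linarith
          · have := abs_nonneg c; linarith
        · rw [abs_le]
          constructor
          · have := abs_nonneg c; linarith
          · linarith
      have b4 : ∫ x in E, |S n k x| ≤ ∫ x in E, (σ * S n k x + 2*|c|) := by
        apply setIntegral_mono_on (cont_integrableOn hE (S_cont n k).abs)
          (cont_integrableOn hE (by have := S_cont n k; fun_prop)) hEm b1
      rw [integral_add (cont_integrableOn hE (by have := S_cont n k; fun_prop))
        (cont_integrableOn hE (by fun_prop)), integral_const_mul, setIntegral_const, smul_eq_mul] at b4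
      have b5 : σ * ∫ x in E, S n k x ≤ |∫ x in E, S n k x| := by
        rcases hσ with rfl | rfl
        · rw [one_mul]; exact le_abs_self _
        · have := neg_le_abs (∫ x in E, S n k x); linarith
      have b6 : e * (2*|c|) ≤ 4*π*|c| := by
        have := abs_nonneg c
        nlinarith
      linarith
    have a4 : ∫ x in E, S n k x ^ 2 ≤ (Λ * m) * (∫ x in E, |S n k x|) + (1/(Λ*m)^2) * ∫ x in (0:ℝ)..(2*π), S n k x ^ 4 := by
      have hL : 0 < Λ * m := by positivity
      have c1 : ∀ x, S n k x ^ 2 ≤ (Λ * m) * |S n k x| + (1/(Λ*m)^2) * S n k x ^ 4 := by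
        intro x
        rcases le_total (|S n k x|) (Λ * m) with hle | hle
        · have d1 : S n k x ^ 2 = |S n k x| * |S n k x| := by rw [← sq, sq_abs]
          have d2 : |S n k x| * |S n k x| ≤ (Λ * m) * |S n k x| :=
            mul_le_mul_of_nonneg_right hle (abs_nonneg _)
          have d3 : 0 ≤ (1/(Λ*m)^2) * S n k x ^ 4 := by positivity
          linarith
        · have d1 : (Λ*m)^2 ≤ S n k x ^ 2 := by
            rw [← sq_abs (S n k x)]
            exact pow_le_pow_left₀ hL.le hle 2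
          have d2 : S n k x ^ 2 ≤ (1/(Λ*m)^2) * S n k x ^ 4 := by
            rw [div_mul_eq_mul_div, one_mul, le_div_iff₀ (by positivity)]
            have : S n k x ^ 4 = S n k x ^ 2 * S n k x ^ 2 := by ring
            rw [this]
            exact mul_le_mul_of_nonneg_left d1 (sq_nonneg _)
          have d3 : 0 ≤ (Λ * m) * |S n k x| := by positivity
          linarith
      have c2 : ∫ x in E, S n k x ^ 2 ≤ ∫ x in E, ((Λ * m) * |S n k x| + (1/(Λ*m)^2) * S n k x ^ 4) := by
        apply integral_mono (cont_integrableOn hE ((S_cont n k).pow 2))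
          (cont_integrableOn hE (by have := S_cont n k; fun_prop))
        exact c1
      rw [integral_add (cont_integrableOn hE (by have := S_cont n k; fun_prop))
        (cont_integrableOn hE (by have := S_cont n k; fun_prop)), integral_const_mul, integral_const_mul] at c2
      have c3 : ∫ x in E, S n k x ^ 4 ≤ ∫ x in (0:ℝ)..(2*π), S n k x ^ 4 :=
        setInt_le_int hE hEm ((S_cont n k).pow 4) (fun x => by positivity)
      have c4 : (1/(Λ*m)^2) * ∫ x in E, S n k x ^ 4 ≤ (1/(Λ*m)^2) * ∫ x in (0:ℝ)..(2*π), S n k x ^ 4 :=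
        mul_le_mul_of_nonneg_left c3 (by positivity)
      linarith
    have a5 : (1/(Λ*m)^2) * ∫ x in (0:ℝ)..(2*π), S n k x ^ 4 ≤ (m:ℝ)^2 * (e/16) := by
      have d1 : (1/(Λ*m)^2) * ∫ x in (0:ℝ)..(2*π), S n k x ^ 4 ≤ (1/(Λ*m)^2) * (K * k^2) :=
        mul_le_mul_of_nonneg_left (hK k) (by positivity)
      have d2 : (1/(Λ*m)^2) * (K * (k:ℝ)^2) = (m:ℝ)^2 * (K/Λ^2) := by
        rw [hkr]; field_simp
      rw [d2] at d1
      exact d1.trans (mul_le_mul_of_nonneg_left hΛ (by positivity))
    have a6 : (Λ * m) * (∫ x in E, |S n k x|) ≤ (Λ * m) * (C1 + e/(16*Λ) * m + 4*π*|c|) :=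
      mul_le_mul_of_nonneg_left (by linarith) (by positivity)
    have a7 : (Λ * m) * (C1 + e/(16*Λ) * m + 4*π*|c|) = Λ * (C1 + 4*π*|c|) * m + (m:ℝ)^2 * (e/16) := by
      field_simp
      ring
    rw [hkr] at a1
    nlinarith
  set A := C2 + Λ * (C1 + 4*π*|c|) with hA
  have hA0 : 0 ≤ A := by positivity
  obtain ⟨m, hm⟩ := exists_nat_gt (max (A / (5*e/16)) (k0 + 1))
  have hm1 : (k0:ℝ) + 1 < m := (le_max_right _ _).trans_lt hm
  have hm2 : A / (5*e/16) < m := (le_max_left _ _).trans_lt hm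
  have hm3 : k0 + 1 < m := by exact_mod_cast hm1
  have hm4 := key m (by omega) (by nlinarith)
  rw [div_lt_iff₀ (by positivity)] at hm2
  have hmr : (1:ℝ) ≤ m := by
    have : 1 ≤ m := by omega
    exact_mod_cast this
  have h9 : C2 + Λ * (C1 + 4*π*|c|) * m ≤ A * m := by
    rw [hA]; nlinarith
  have h10 : A * m < m * (5*e/16) * m := mul_lt_mul_of_pos_right hm2 (by linarith)
  nlinarith

end

end Pool.Agent.N706.Lac
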