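import Pool.Agent.N706.Lac.C
set_option autoImplicit false

/-! # The partial sums cannot jump over an interval infinitely often on a set of positive measure -/

open MeasureTheory Real Filter Topology

namespace Pool.Agent.N706.Lac

section
variable {n : ℕ → ℕ} {q : ℝ}

lemma abs_cos_sub_cos_le (x y : ℝ) : |Real.cos x - Real.cos y| ≤ |x - y| := by
  rw [Real.cos_sub_cos, abs_mul, abs_mul]
  have h1 : |Real.sin ((x+y)/2)| ≤ 1 := Real.abs_sin_le_one _
  have h2 : |Real.sin ((x-y)/2)| ≤ |(x-y)/2| := Real.abs_sin_le_abs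
  have h3 : |(x-y)/2| = |x-y|/2 := by rw [abs_div]; norm_num
  rw [h3] at h2
  have h4 : |(-2:ℝ)| = 2 := by norm_num
  rw [h4]
  have h5 := abs_nonneg (Real.sin ((x-y)/2))
  have h6 := abs_nonneg (Real.sin ((x+y)/2))
  nlinarith

lemma S_lip (hq : 1 < q) (hgrow : ∀ k, q * (n k : ℝ) ≤ (n (k + 1) : ℝ)) (k m : ℕ) (hm : m ≤ k + 1) (x y : ℝ) :
    |S n m x - S n m y| ≤ (q/(q-1) * n k) * |x - y| := by
  unfold S
  rw [← Finset.sum_sub_distrib]
  calc |∑ i ∈ Finset.range m, (Real.cos (n i * x) - Real.cos (n i * y))|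
      ≤ ∑ i ∈ Finset.range m, |Real.cos (n i * x) - Real.cos (n i * y)| := Finset.abs_sum_le_sum_abs _ _
    _ ≤ ∑ i ∈ Finset.range m, (n i : ℝ) * |x - y| := by
        refine Finset.sum_le_sum fun i _ => ?_
        refine (abs_cos_sub_cos_le _ _).trans (le_of_eq ?_)
        rw [← mul_sub, abs_mul, abs_of_nonneg (by positivity)]
    _ ≤ ∑ i ∈ Finset.range (k+1), (n i : ℝ) * |x - y| :=
        Finset.sum_le_sum_of_subset_of_nonneg (Finset.range_mono hm) (fun i _ _ => by positivity)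
    _ = (∑ i ∈ Finset.range (k+1), (n i : ℝ)) * |x - y| := by rw [Finset.sum_mul]
    _ ≤ _ := mul_le_mul_of_nonneg_right (n_sum hq hgrow k) (abs_nonneg _)

/-- the set of points whose partial sums avoid `(ξ-ε, ξ+ε)` from time `M` on -/
def B (n : ℕ → ℕ) (ξ ε : ℝ) (M : ℕ) : Set ℝ := {x | ∀ k, M ≤ k → ε ≤ |S n k x - ξ|}

lemma B_closed (ξ ε : ℝ) (M : ℕ) : IsClosed (B n ξ ε M) := by
  have : B n ξ ε M = ⋂ k, ⋂ (_ : M ≤ k), {x | ε ≤ |S n k x - ξ|} := by
    ext x; simp [B]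
  rw [this]
  refine isClosed_iInter fun k => isClosed_iInter fun _ => ?_
  exact isClosed_le continuous_const ((S_cont n k).sub continuous_const).abs

/-- a zero of `S n m - ξ` near `x` at scale `1/n k` creates a hole of `B` of proportional size -/
lemma hole (hq : 1 < q) (hpos : ∀ k, 0 < n k) (hgrow : ∀ k, q * (n k : ℝ) ≤ (n (k + 1) : ℝ))
    (ξ ε : ℝ) (hε : 0 < ε) (M k m : ℕ) (hm : m ≤ k + 1) (hMm : M ≤ m) (x z : ℝ) (hz : |z - x| ≤ π / n k)
    (hzero : S n m z = ξ) :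
    volume (B n ξ ε M ∩ Metric.closedBall x (2*π/n k)) / volume (Metric.closedBall x (2*π/n k)) ≤
      ENNReal.ofReal (1 - (min (ε/(2*(q/(q-1)))) π)/(2*π)) := by
  have hpi := Real.pi_pos
  have hq1 : 0 < q - 1 := by linarith
  have hC : 0 < q/(q-1) := by positivity
  have hn : (0:ℝ) < n k := by exact_mod_cast hpos k
  set δ := min (ε/(2*(q/(q-1)))) π with hδ
  have hδ0 : 0 < δ := lt_min (by positivity) hpi
  have hδ1 : δ ≤ ε/(2*(q/(q-1))) := min_le_left _ _
  have hδ2 : δ ≤ π := min_le_right _ _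
  have hsub : Metric.closedBall z (δ / n k) ⊆ Metric.closedBall x (2*π/n k) := by
    intro y hy
    rw [Metric.mem_closedBall, Real.dist_eq] at hy ⊢
    have h1 : |y - x| ≤ |y - z| + |z - x| := abs_sub_le _ _ _
    have h2 : δ / n k ≤ π / n k := by gcongr
    have h3 : 2*π/n k = π / n k + π / n k := by ring
    linarith
  have hdisj : Metric.closedBall z (δ / n k) ∩ B n ξ ε M = ∅ := by
    rw [Set.eq_empty_iff_forall_notMem]
    rintro y ⟨hy, hyB⟩
    rw [Metric.mem_closedBall, Real.dist_eq] at hy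
    have h1 := hyB m hMm
    have h2 := S_lip hq hgrow k m hm y z
    rw [hzero] at h2
    have h3 : (q/(q-1) * n k) * |y - z| ≤ (q/(q-1) * n k) * (δ / n k) :=
      mul_le_mul_of_nonneg_left hy (by positivity)
    have h4 : (q/(q-1) * n k) * (δ / n k) = q/(q-1) * δ := by field_simp
    have h5 : q/(q-1) * δ ≤ q/(q-1) * (ε/(2*(q/(q-1)))) := mul_le_mul_of_nonneg_left hδ1 hC.le
    have h6 : q/(q-1) * (ε/(2*(q/(q-1)))) = ε/2 := by field_simp
    linarith
  have hsub2 : B n ξ ε M ∩ Metric.closedBall x (2*π/n k) ⊆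
      Metric.closedBall x (2*π/n k) \ Metric.closedBall z (δ / n k) := by
    rintro y ⟨hy1, hy2⟩
    refine ⟨hy2, fun hy3 => ?_⟩
    have : y ∈ Metric.closedBall z (δ / n k) ∩ B n ξ ε M := ⟨hy3, hy1⟩
    rw [hdisj] at this
    exact this
  have hvol : volume (B n ξ ε M ∩ Metric.closedBall x (2*π/n k)) ≤
      ENNReal.ofReal (2*(2*π/n k) - 2*(δ/n k)) := by
    refine (measure_mono hsub2).trans ?_
    rw [measure_sdiff hsub measurableSet_closedBall.nullMeasurableSet (by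
      rw [Real.volume_closedBall]; exact ENNReal.ofReal_ne_top), Real.volume_closedBall,
      Real.volume_closedBall, ENNReal.ofReal_sub _ (by positivity)]
  rw [Real.volume_closedBall]
  refine (ENNReal.div_le_div_right hvol _).trans ?_
  rw [← ENNReal.ofReal_div_of_pos (by positivity)]
  apply ENNReal.ofReal_le_ofReal
  apply le_of_eq
  field_simp

lemma exists_peak (N : ℕ) (hN : 0 < N) (x : ℝ) : ∃ z : ℝ, |z - x| ≤ π / N ∧ Real.cos (N * z) = 1 := by
  have hpi := Real.pi_pos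
  have hn : (0:ℝ) < N := by exact_mod_cast hN
  refine ⟨(round (N * x / (2*π)) : ℝ) * (2*π) / N, ?_, ?_⟩
  · have h1 := abs_sub_round (N * x / (2*π))
    have h2 : (round (N * x / (2*π)) : ℝ) * (2*π) / N - x =
        -(2*π/N) * (N * x / (2*π) - (round (N * x / (2*π)) : ℝ)) := by
      field_simp; ring
    rw [h2, abs_mul, abs_neg, abs_of_pos (by positivity)]
    calc 2*π/N * |N * x / (2*π) - (round (N * x / (2*π)) : ℝ)| ≤ 2*π/N * (1/2) :=
          mul_le_mul_of_nonneg_left h1 (by positivity)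
      _ = π / N := by ring
  · have : (N:ℝ) * ((round (N * x / (2*π)) : ℝ) * (2*π) / N) = (round (N * x / (2*π)) : ℝ) * (2*π) := by
      field_simp
    rw [this, Real.cos_int_mul_two_pi]

lemma exists_valley (N : ℕ) (hN : 0 < N) (x : ℝ) : ∃ z : ℝ, |z - x| ≤ π / N ∧ Real.cos (N * z) = -1 := by
  have hpi := Real.pi_pos
  have hn : (0:ℝ) < N := by exact_mod_cast hN
  obtain ⟨w, hw1, hw2⟩ := exists_peak N hN (x - π / N)
  refine ⟨w + π / N, ?_, ?_⟩
  · have : w + π / N - x = w - (x - π / N) := by ring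
    rw [this]; exact hw1
  · have : (N:ℝ) * (w + π / N) = N * w + π := by field_simp
    rw [this, Real.cos_add_pi, hw2]

lemma exists_zero_between {f : ℝ → ℝ} (hf : Continuous f) {x z ξ r : ℝ} (hz : |z - x| ≤ r)
    (h : (ξ ≤ f x ∧ f z ≤ ξ) ∨ (f x ≤ ξ ∧ ξ ≤ f z)) : ∃ w, |w - x| ≤ r ∧ f w = ξ := by
  have h1 : ξ ∈ Set.uIcc (f x) (f z) := by
    rcases h with h | h
    · exact Set.mem_uIcc.2 (Or.inr ⟨h.2, h.1⟩)
    · exact Set.mem_uIcc.2 (Or.inl h)
  obtain ⟨w, hw, hw2⟩ := intermediate_value_uIcc hf.continuousOn h1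
  refine ⟨w, ?_, hw2⟩
  have := Set.abs_sub_left_of_mem_uIcc hw
  exact this.trans hz

/-- a sign change between time `k` and `k+1` at `x` creates a zero at scale `1/n k`. -/
lemma zero_of_cross (hpos : ∀ k, 0 < n k) (ξ : ℝ) (k : ℕ) (x : ℝ)
    (h : ¬ (ξ < S n k x ↔ ξ < S n (k+1) x)) :
    ∃ m, (m = k ∨ m = k + 1) ∧ ∃ z, |z - x| ≤ π / n k ∧ S n m z = ξ := by
  have hstep : ∀ y, S n (k+1) y = S n k y + Real.cos (n k * y) := by
    intro y; unfold S; rw [Finset.sum_range_succ]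
  by_cases h1 : ξ < S n k x
  · have h2 : S n (k+1) x ≤ ξ := by
      by_contra hcon
      push Not at hcon
      exact h ⟨fun _ => hcon, fun _ => h1⟩
    obtain ⟨z0, hz0, hc⟩ := exists_peak (n k) (hpos k) x
    rcases le_or_gt (S n k z0) ξ with h3 | h3
    · obtain ⟨w, hw1, hw2⟩ := exists_zero_between (S_cont n k) hz0 (Or.inl ⟨h1.le, h3⟩)
      exact ⟨k, Or.inl rfl, w, hw1, hw2⟩
    · have h4 : ξ ≤ S n (k+1) z0 := by rw [hstep, hc]; linarith
      obtain ⟨w, hw1, hw2⟩ := exists_zero_between (S_cont n (k+1)) hz0 (Or.inr ⟨h2, h4⟩)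
      exact ⟨k+1, Or.inr rfl, w, hw1, hw2⟩
  · have h2 : ξ < S n (k+1) x := by
      by_contra hcon
      exact h ⟨fun h => absurd h h1, fun h => absurd h hcon⟩
    push Not at h1
    obtain ⟨z0, hz0, hc⟩ := exists_valley (n k) (hpos k) x
    rcases le_or_gt ξ (S n k z0) with h3 | h3
    · obtain ⟨w, hw1, hw2⟩ := exists_zero_between (S_cont n k) hz0 (Or.inr ⟨h1, h3⟩)
      exact ⟨k, Or.inl rfl, w, hw1, hw2⟩
    · have h4 : S n (k+1) z0 ≤ ξ := by rw [hstep, hc]; linarith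
      obtain ⟨w, hw1, hw2⟩ := exists_zero_between (S_cont n (k+1)) hz0 (Or.inl ⟨h2.le, h4⟩)
      exact ⟨k+1, Or.inr rfl, w, hw1, hw2⟩

lemma ae_const_sign (hq : 1 < q) (hpos : ∀ k, 0 < n k) (hgrow : ∀ k, q * (n k : ℝ) ≤ (n (k + 1) : ℝ))
    (ξ ε : ℝ) (hε : 0 < ε) (M : ℕ) :
    ∀ᵐ x ∂(volume.restrict (B n ξ ε M)), ∃ k1, ∀ k ≥ k1, (ξ < S n k x ↔ ξ < S n (k+1) x) := by
  have hpi := Real.pi_pos
  have hq1 : 0 < q - 1 := by linarith
  have hmono := n_mono hq hpos hgrow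
  filter_upwards [Besicovitch.ae_tendsto_measure_inter_div volume (B n ξ ε M)] with x hx
  have hr : Tendsto (fun k : ℕ => 2*π/(n k : ℝ)) atTop (𝓝[>] 0) := by
    rw [tendsto_nhdsWithin_iff]
    constructor
    · have h1 : Tendsto (fun k : ℕ => (n k : ℝ)) atTop atTop :=
        tendsto_natCast_atTop_atTop.comp hmono.tendsto_atTop
      exact h1.const_div_atTop _
    · filter_upwards with k
      have : (0:ℝ) < n k := by exact_mod_cast hpos k
      show (0:ℝ) < 2*π/(n k : ℝ)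
      positivity
  have h1 := hx.comp hr
  set δ := min (ε/(2*(q/(q-1)))) π with hδ
  have hδ0 : 0 < δ := lt_min (by positivity) hpi
  have h2 : ENNReal.ofReal (1 - δ/(2*π)) < 1 := by
    rw [ENNReal.ofReal_lt_one]
    have : 0 < δ/(2*π) := by positivity
    linarith
  have h3 := (h1.eventually (lt_mem_nhds h2)).and (eventually_ge_atTop M)
  obtain ⟨k1, hk1⟩ := eventually_atTop.1 h3
  refine ⟨k1, fun k hk => ?_⟩
  by_contra hcon
  obtain ⟨m, hm, z, hz1, hz2⟩ := zero_of_cross hpos ξ k x hcon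
  have h4 := (hk1 k hk).1
  have h5 := hole hq hpos hgrow ξ ε hε M k m (by omega) (by have := (hk1 k hk).2; omega) x z hz1 hz2
  exact absurd h4 (not_lt.2 h5)

lemma B_null (hq : 1 < q) (hpos : ∀ k, 0 < n k) (hgrow : ∀ k, q * (n k : ℝ) ≤ (n (k + 1) : ℝ))
    (ξ ε : ℝ) (hε : 0 < ε) (M : ℕ) : volume (B n ξ ε M ∩ Set.Ioc 0 (2*π)) = 0 := by
  have h1 := ae_const_sign hq hpos hgrow ξ ε hε M
  have hBm : MeasurableSet (B n ξ ε M) := (B_closed ξ ε M).measurableSet
  rw [ae_restrict_iff' hBm] at h1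
  set Ep : ℕ → Set ℝ := fun k1 => {x | x ∈ Set.Ioc 0 (2*π) ∧ ∀ k ≥ k1, ξ ≤ S n k x} with hEp
  set Em : ℕ → Set ℝ := fun k1 => {x | x ∈ Set.Ioc 0 (2*π) ∧ ∀ k ≥ k1, S n k x ≤ ξ} with hEm
  have mEp : ∀ k1, MeasurableSet (Ep k1) := by
    intro k1
    apply MeasurableSet.inter measurableSet_Ioc
    have : {x : ℝ | ∀ k ≥ k1, ξ ≤ S n k x} = ⋂ k, ⋂ (_ : k ≥ k1), {x | ξ ≤ S n k x} := by
      ext x; simp
    show MeasurableSet {x : ℝ | ∀ k ≥ k1, ξ ≤ S n k x}
    rw [this]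
    exact MeasurableSet.iInter fun k => MeasurableSet.iInter fun _ =>
      (isClosed_le continuous_const (S_cont n k)).measurableSet
  have mEm : ∀ k1, MeasurableSet (Em k1) := by
    intro k1
    apply MeasurableSet.inter measurableSet_Ioc
    have : {x : ℝ | ∀ k ≥ k1, S n k x ≤ ξ} = ⋂ k, ⋂ (_ : k ≥ k1), {x | S n k x ≤ ξ} := by
      ext x; simp
    show MeasurableSet {x : ℝ | ∀ k ≥ k1, S n k x ≤ ξ}
    rw [this]
    exact MeasurableSet.iInter fun k => MeasurableSet.iInter fun _ =>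
      (isClosed_le (S_cont n k) continuous_const).measurableSet
  have nEp : ∀ k1, volume (Ep k1) = 0 := fun k1 =>
    null_of_bdd hq hpos hgrow (fun x hx => hx.1) (mEp k1) 1 (Or.inl rfl) (-ξ) k1
      (fun k hk x hx => by rw [neg_neg, one_mul]; exact hx.2 k hk)
  have nEm : ∀ k1, volume (Em k1) = 0 := fun k1 =>
    null_of_bdd hq hpos hgrow (fun x hx => hx.1) (mEm k1) (-1) (Or.inr rfl) ξ k1
      (fun k hk x hx => by have := hx.2 k hk; linarith)
  have h2 : ∀ᵐ x : ℝ, ¬ (x ∈ B n ξ ε M ∩ Set.Ioc 0 (2*π)) := by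
    have a1 : ∀ᵐ x : ℝ, ∀ k1, x ∉ Ep k1 := by
      rw [ae_all_iff]; intro k1; exact measure_eq_zero_iff_ae_notMem.1 (nEp k1)
    have a2 : ∀ᵐ x : ℝ, ∀ k1, x ∉ Em k1 := by
      rw [ae_all_iff]; intro k1; exact measure_eq_zero_iff_ae_notMem.1 (nEm k1)
    filter_upwards [h1, a1, a2] with x b1 b2 b3 hx
    obtain ⟨k1, hk1⟩ := b1 hx.1
    by_cases hs : ξ < S n k1 x
    · apply b2 k1
      refine ⟨hx.2, fun k hk => ?_⟩
      have : ∀ d, ξ < S n (k1 + d) x := by
        intro d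
        induction d with
        | zero => exact hs
        | succ d ih => exact (hk1 (k1+d) (by omega)).1 ih
      obtain ⟨d, rfl⟩ := Nat.exists_eq_add_of_le hk
      exact (this d).le
    · apply b3 k1
      refine ⟨hx.2, fun k hk => ?_⟩
      have : ∀ d, ¬ ξ < S n (k1 + d) x := by
        intro d
        induction d with
        | zero => exact hs
        | succ d ih => exact fun hh => ih ((hk1 (k1+d) (by omega)).2 hh)
      obtain ⟨d, rfl⟩ := Nat.exists_eq_add_of_le hk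
      exact not_lt.1 (this d)
  exact measure_eq_zero_iff_ae_notMem.2 h2

theorem main (n : ℕ → ℕ) (q : ℝ) (hq : 1 < q) (hpos : ∀ k, 0 < n k)
    (hgrow : ∀ k, q * (n k : ℝ) ≤ (n (k + 1) : ℝ)) :
    volume {x : ℝ | x ∈ Set.Ico 0 (2 * π) ∧ ∀ ξ : ℝ, ∀ ε : ℝ, 0 < ε →
      ∃ᶠ m in atTop, |(∑ k ∈ Finset.range m, Real.cos ((n k : ℝ) * x)) - ξ| < ε}
      = ENNReal.ofReal (2 * π) := by
  have hvol : volume (Set.Ico (0:ℝ) (2*π)) = ENNReal.ofReal (2*π) := by
    rw [Real.volume_Ico, sub_zero]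
  rw [← hvol]
  apply measure_congr
  have h1 : ∀ᵐ x : ℝ, ∀ (a e : ℚ) (M : ℕ), 0 < e → x ∉ B n a e M ∩ Set.Ioc 0 (2*π) := by
    rw [ae_all_iff]; intro a
    rw [ae_all_iff]; intro e
    rw [ae_all_iff]; intro M
    by_cases he : 0 < e
    · have := measure_eq_zero_iff_ae_notMem.1 (B_null hq hpos hgrow (a:ℝ) (e:ℝ) (by exact_mod_cast he) M)
      filter_upwards [this] with x hx _
      exact hx
    · filter_upwards with x h
      exact absurd h he
  have h2 : ∀ᵐ x : ℝ, x ≠ 0 := by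
    rw [ae_iff]; simp
  filter_upwards [h1, h2] with x hx hx0
  apply propext
  constructor
  · intro h; exact h.1
  · intro h
    refine ⟨h, fun ξ ε hε => ?_⟩
    by_contra hcon
    rw [not_frequently] at hcon
    obtain ⟨M, hM⟩ := eventually_atTop.1 hcon
    obtain ⟨a, ha1, ha2⟩ := exists_rat_btwn (show ξ < ξ + ε/2 by linarith)
    obtain ⟨e, he1, he2⟩ := exists_rat_btwn (show (0:ℝ) < ε/2 by linarith)
    have he0 : 0 < e := by exact_mod_cast he1
    apply hx a e M he0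
    refine ⟨fun k hk => ?_, ?_⟩
    · have h3 := hM k hk
      push Not at h3
      have h4 : |(∑ k ∈ Finset.range k, Real.cos ((n k : ℝ) * x)) - ξ| ≤ |S n k x - a| + |(a:ℝ) - ξ| :=
        abs_sub_le _ _ _
      have h5 : |(a:ℝ) - ξ| ≤ ε/2 := by rw [abs_le]; constructor <;> linarith
      linarith
    · exact ⟨lt_of_le_of_ne h.1 (Ne.symm hx0), h.2.le⟩

end

end Pool.Agent.N706.Lac
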